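import Pool.Agent.FS.CubicSmall.Core

set_option autoImplicit false

namespace Pool.Agent.FS.CubicSmall.Variants.CubicCondition

open Pool.Agent.Lib.MP_27cd7e_an Pool.Agent.FS.CubicSmall

/-- Let `f` be holomorphic on an open set `W` of the plane and a covering map over the complement
of a finite set `S`, with at least two sheets.  Let `z₀` be fixed by `g = f^[n]`, `n ≥ 1`, with
orbit in `W` and multiplier `λ = exp (2 π i α)`, `α` irrational.  If for every `C` there is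
`q ≥ 1` with `|λ ^ q - 1| < exp (-C q ^ 3)`, then every neighbourhood of `z₀` contains infinitely
many cycles of `g`. -/
theorem result (W : Set ℂ) (hW : IsOpen W) (f : ℂ → ℂ) (hf : DifferentiableOn ℂ f W)
    (S : Set ℂ) (hS : S.Finite) (hcov : IsCoveringMapOn (fun z : W => f z) Sᶜ)
    (hdeg : ∃ z₁ ∈ W, ∃ z₂ ∈ W, z₁ ≠ z₂ ∧ f z₁ = f z₂ ∧ f z₁ ∉ S)
    (z₀ : ℂ) (n : ℕ) (hn : 1 ≤ n) (horb : ∀ i < n, f^[i] z₀ ∈ W) (hper : f^[n] z₀ = z₀)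
    (α : ℝ) (hα : Irrational α)
    (hmul : deriv (f^[n]) z₀ = Complex.exp (2 * (Real.pi : ℂ) * Complex.I * (α : ℂ)))
    (hL : ∀ C : ℝ, ∃ q : ℕ, 1 ≤ q ∧
      ‖Complex.exp (2 * (Real.pi : ℂ) * Complex.I * (α : ℂ)) ^ q - 1‖ < Real.exp (-(C * q ^ 3)))
    (U : Set ℂ) (hU : U ∈ nhds z₀) :
    {c : Set ℂ | c ⊆ U ∧ (∀ y ∈ c, ∀ i < n, f^[i] y ∈ W) ∧ ∃ x : ℂ, ∃ m : ℕ, 1 ≤ m ∧
      (f^[n])^[m] x = x ∧ c = {y | ∃ k < m, (f^[n])^[k] x = y}}.Infinite := by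
  obtain ⟨n, rfl⟩ : ∃ k, n = k + 1 := ⟨n - 1, by omega⟩
  obtain ⟨V, T, h1, h2⟩ := (FT.of_cov hW hf hS hcov hdeg).iterate n
  have h3 : z₀ ∈ V := (h2 z₀).2 fun i hi => horb i (by omega)
  refine (small_cycles h1 h3 hper hα hmul hL
    (Filter.inter_mem hU (h1.opn.mem_nhds h3))).mono ?_
  rintro c ⟨h4, h5⟩
  exact ⟨fun y hy => (h4 hy).1, fun y hy i hi => (h2 y).1 (h4 hy).2 i (by omega), h5⟩

/-- Under the same hypotheses the point is a Cremer point. -/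
theorem not_linearizable (W : Set ℂ) (hW : IsOpen W) (f : ℂ → ℂ) (hf : DifferentiableOn ℂ f W)
    (S : Set ℂ) (hS : S.Finite) (hcov : IsCoveringMapOn (fun z : W => f z) Sᶜ)
    (hdeg : ∃ z₁ ∈ W, ∃ z₂ ∈ W, z₁ ≠ z₂ ∧ f z₁ = f z₂ ∧ f z₁ ∉ S)
    (z₀ : ℂ) (n : ℕ) (hn : 1 ≤ n) (horb : ∀ i < n, f^[i] z₀ ∈ W) (hper : f^[n] z₀ = z₀)
    (α : ℝ) (hα : Irrational α)
    (hmul : deriv (f^[n]) z₀ = Complex.exp (2 * (Real.pi : ℂ) * Complex.I * (α : ℂ)))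
    (hL : ∀ C : ℝ, ∃ q : ℕ, 1 ≤ q ∧
      ‖Complex.exp (2 * (Real.pi : ℂ) * Complex.I * (α : ℂ)) ^ q - 1‖ < Real.exp (-(C * q ^ 3))) :
    ¬ ∃ φ : ℂ → ℂ, AnalyticAt ℂ φ z₀ ∧ φ z₀ = 0 ∧ deriv φ z₀ ≠ 0 ∧
      ∀ᶠ w in nhds z₀, φ (f^[n] w) =
        Complex.exp (2 * (Real.pi : ℂ) * Complex.I * (α : ℂ)) * φ w := by
  rintro ⟨φ, a1, a2, a3, a4⟩
  obtain ⟨U, hU, hone⟩ := one_cycle hα a1 a2 a3 a4
  refine result W hW f hf S hS hcov hdeg z₀ n hn horb hper α hα hmul hL U hU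
    ((Set.finite_singleton {z₀}).subset ?_)
  rintro c ⟨h4, -, x, m, hm, hx, rfl⟩
  obtain rfl := hone x m hm hx fun k hk => h4 ⟨k, hk, rfl⟩
  ext y
  constructor
  · rintro ⟨k, -, rfl⟩
    exact Function.iterate_fixed hper k
  · rintro rfl
    exact ⟨0, hm, rfl⟩

end Pool.Agent.FS.CubicSmall.Variants.CubicCondition
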